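import Pool.Agent.H17.HD.HB
import Pool.Agent.H7.HD.Targets2

/-!
# Module HB2: existence of atoms at ordinals of large cofinality
(an adaptation of Pool/Agent/H17/HD/HB.lean)
-/

open Ordinal Cardinal Order Set
open scoped ZFSet
open _root_.HD

universe u

namespace Pool.Agent.H69.HD.HB2

open Pool.Agent.H17.HD Pool.Agent.H17.HD.HB

theorem clb_univ2 {κ : Ordinal.{u}} (hK : ℵ₀ ≤ κ.cof) : Clb κ univ where
  unb := fun a ha => ⟨succ a, (Ordinal.aleph0_le_cof.1 hK).succ_lt ha, Order.lt_succ a,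
    mem_univ _⟩
  cls := fun _ _ _ _ => mem_univ _

theorem X (hEA : T_EA.{u}) (hEB : T_EB.{u}) (hDA : T_DA.{u}) (hVA : T_VA.{u}) (hVH : T_VH.{u}) :
    T_HB2.{u} := by
  intro en hen D M κ hD hDs hD0 hM hMD hDK hNSX X hX hXpos
  have hlim : ℵ₀ ≤ κ.cof := (hD0.trans hDK).le
  obtain ⟨hE1, -, hE3, -⟩ := hEA en hen
  obtain ⟨Θ, hΘ⟩ := theta hE3 κ
  have hrec := hEB en hen _ (phi_do hDA hE1 hX M.ord κ Θ)
  by_contra hno
  push Not at hno
  -- the sets `J a`
  let J : Ordinal.{u} → Set Ordinal.{u} := fun a =>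
    {x | recJ (Phi en X M.ord κ Θ) (fun _ => a) x}
  have hJ : ∀ a x, x ∈ J a ↔ Phi en X M.ord κ Θ x {y | y < x ∧ y ∈ J a} (fun _ => a) :=
    fun a x => recJ_iff _ _ x
  have hJds : ∀ a, DS (J a) := fun a =>
    DO.sect (P := fun x w => recJ (Phi en X M.ord κ Θ) w x) hrec (fun _ => a)
  -- `J a` is small
  have hfew : ∀ a, Few D.ord (J a) := by
    intro a
    refine hNSX (fun x b => b ∈ Dd en X {y | y < x ∧ y ∈ J a} a ∧ ¬ (b ∈ E en x ↔ a ∈ E en x))
      (J a) ?_ (hJds a) ?_ ?_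
    · refine DO.and ?_ ((mem_do hE1 1 0).iff (memc_do hE1 a 0)).not
      refine DO.and (hX.s1 1) ?_
      refine DO.all (R := fun y w => (y < w 0 ∧ y ∈ J a) → (w 1 ∈ E en y ↔ a ∈ E en y)) ?_
      exact (DO.and (DO.lt 0 1) (hJds a)).imp ((mem_do hE1 2 0).iff (memc_do hE1 a 0))
    · intro x hx
      obtain ⟨-, h1, h2⟩ := (hJ a x).1 hx
      by_cases ha : a ∈ E en x
      · exact h2.mono fun b _ hb _ => ⟨hb.1, fun h => hb.2 (h.2 ha)⟩
      · exact h1.mono fun b _ hb _ => ⟨hb.1, fun h => ha (h.1 hb.2)⟩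
    · intro x hx y hy b hbx hby
      rcases lt_trichotomy x y with h | h | h
      · exact absurd (hby.1.2 x ⟨h, hx⟩) hbx.2
      · exact h
      · exact absurd (hbx.1.2 y ⟨h, hy⟩) hby.2
  -- `D(a)` is null
  have hnull : ∀ a, ¬ Pos M.ord κ (Dd en X (J a) a) := by
    intro a hpos
    have hDds : DS (Dd en X (J a) a) := by
      refine DO.and hX ?_
      refine DO.all (R := fun y w => y ∈ J a → (w 0 ∈ E en y ↔ a ∈ E en y)) ?_
      exact (hJds a).imp ((mem_do hE1 1 0).iff (memc_do hE1 a 0))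
    obtain ⟨c, hc⟩ := hE3 _ hDds κ
    refine hno c (fun b hb => ?_) ⟨?_, fun x hx => ?_⟩
    · rw [hc] at hb
      exact hb.1.1
    · rw [hc]
      exact hpos.mono fun b hb h _ => ⟨h, hb⟩
    · obtain ⟨x', hx', hEx⟩ := hΘ (E en x)
        (DO.sect (P := fun b w => b ∈ E en (w 0)) (mem_do hE1 0 1) (fun _ => x))
      have hEx' : ∀ b < κ, (b ∈ E en x' ↔ b ∈ E en x) := by
        intro b hb
        rw [hEx]
        exact ⟨fun h => h.1, fun h => ⟨h, hb⟩⟩
      have hsub : ∀ b, b ∈ Dd en X (J a) a → b ∈ Dd en X {y | y < x' ∧ y ∈ J a} a :=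
        fun b hb => ⟨hb.1, fun y hy => hb.2 y hy.2⟩
      have hcD : ∀ b, b ∈ E en c → b ∈ Dd en X (J a) a := fun b hb => by
        rw [hc] at hb
        exact hb.1
      have hxJ : x' ∈ J a := by
        rw [hJ]
        refine ⟨hx', hx.1.mono fun b hb h _ => ?_, hx.2.mono fun b hb h _ => ?_⟩
        · exact ⟨hsub b (hcD b h.1), (hEx' b hb).2 h.2⟩
        · exact ⟨hsub b (hcD b h.1), fun h' => h.2 ((hEx' b hb).1 h')⟩
      by_cases ha : a ∈ E en x'
      · obtain ⟨b, hb, -, hb2, -⟩ := hx.2 univ (clb_univ2 hlim)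
        exact hb2.2 ((hEx' b hb).1 (((hcD b hb2.1).2 x' hxJ).2 ha))
      · obtain ⟨b, hb, -, hb2, -⟩ := hx.1 univ (clb_univ2 hlim)
        exact ha (((hcD b hb2.1).2 x' hxJ).1 ((hEx' b hb).2 hb2.2))
  -- the index sets
  have hidx := fun a => XK.idx hVH (hfew a)
  choose τ hτ hi1 hi2 using hidx
  let P : Ordinal.{u} → Set D.ord.ToType := fun b =>
    {i | ∃ y, nth (J b) (ToType.mk.symm i).1 y ∧ b ∈ E en y}
  have hPb : ∀ b, Bounded (· < ·) (P b) := by
    intro b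
    refine ⟨ToType.mk ⟨τ b, hτ b⟩, fun i hi => ?_⟩
    obtain ⟨y, hy, -⟩ := hi
    have h1 := hi2 b _ _ hy
    have h2 : ToType.mk.symm i < (⟨τ b, hτ b⟩ : Iio D.ord) := h1
    have h3 := ToType.mk.lt_iff_lt.2 h2
    rwa [OrderIso.apply_symm_apply] at h3
  have hP : ∀ a b i, i < D.ord → P a = P b →
      ((∃ y, nth (J a) i y ∧ a ∈ E en y) ↔ ∃ y, nth (J b) i y ∧ b ∈ E en y) := by
    intro a b i hi hab
    have h1 : (ToType.mk ⟨i, hi⟩ ∈ P a) ↔ (ToType.mk ⟨i, hi⟩ ∈ P b) := by rw [hab]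
    simpa [P] using h1
  -- equal index sets
  have hsame : ∀ a b, P a = P b → ∀ x, (x ∈ J a ↔ x ∈ J b) ∧
      (x ∈ J a → (a ∈ E en x ↔ b ∈ E en x)) := by
    intro a b hab x
    induction x using WellFoundedLT.induction with
    | ind x ih =>
      have hAB : {y | y < x ∧ y ∈ J a} = {y | y < x ∧ y ∈ J b} := by
        ext y
        exact and_congr_right fun h => (ih y h).1
      have hDD : Dd en X {y | y < x ∧ y ∈ J a} a = Dd en X {y | y < x ∧ y ∈ J b} b := by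
        ext c
        refine and_congr_right fun _ => forall_congr' fun y => ?_
        constructor
        · intro h hy
          rw [h ⟨hy.1, (ih y hy.1).1.2 hy.2⟩]
          exact (ih y hy.1).2 ((ih y hy.1).1.2 hy.2)
        · intro h hy
          rw [h ⟨hy.1, (ih y hy.1).1.1 hy.2⟩]
          exact ((ih y hy.1).2 hy.2).symm
      have hmem : x ∈ J a ↔ x ∈ J b := by
        rw [hJ, hJ]
        unfold Phi
        rw [hDD]
      refine ⟨hmem, fun hx => ?_⟩
      obtain ⟨i, -, hi⟩ := (hVH (J a)).1 x hx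
      have hib : nth (J b) i x := nth_congr (fun y hy => (ih y hy).1) (hmem.1 hx) hi
      have hiD : i < D.ord := (hi2 a _ _ hi).trans (hτ a)
      have key := hP a b i hiD hab
      constructor
      · intro h
        obtain ⟨y, hy, hby⟩ := key.1 ⟨x, hi, h⟩
        rwa [XK.nth_uniq hVH hib hy]
      · intro h
        obtain ⟨y, hy, hay⟩ := key.2 ⟨x, hib, h⟩
        rwa [XK.nth_uniq hVH hi hy]
  -- the number of index sets
  have hcard : #{s : Set D.ord.ToType // Bounded (· < ·) s} = #D.ord.ToType := by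
    refine Cardinal.mk_bounded_subset ?_ ?_
    · rw [Cardinal.mk_ord_toType]
      exact hDs.isStrongPrelimit
    · rw [Cardinal.mk_ord_toType, Ordinal.type_toType]
  obtain ⟨e⟩ := Cardinal.eq.1 hcard
  refine hVA M.ord κ (hD0.trans hDK) D.ord
    (by rw [Cardinal.card_ord]; exact hDK)
    (fun i => {b | b ∈ X ∧ (ToType.mk.symm (e ⟨P b, hPb b⟩)).1 = i}) (fun i _ hpos => ?_) ?_
  · obtain ⟨a, -, -, ha, -⟩ := hpos univ (clb_univ2 hlim)
    refine hnull a (hpos.mono fun b _ hb _ => ?_)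
    have h1 : (ToType.mk.symm (e ⟨P a, hPb a⟩)).1 = (ToType.mk.symm (e ⟨P b, hPb b⟩)).1 :=
      ha.2.trans hb.2.symm
    have h2 := e.injective (ToType.mk.symm.injective (Subtype.ext h1))
    have h3 : P a = P b := congrArg Subtype.val h2
    exact ⟨hb.1, fun y hy => ((hsame a b h3 y).2 hy).symm⟩
  · exact hXpos.mono fun b _ hb _ => ⟨_, (ToType.mk.symm (e ⟨P b, hPb b⟩)).2, hb, rfl⟩

end Pool.Agent.H69.HD.HB2
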