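import Pool.Agent.H7.HD.Targets5

/-!
# Module CA: definable cofinal subsets of small order type
-/

open Ordinal Cardinal Order Set
open scoped ZFSet
open _root_.HD

universe u

namespace Pool.Agent.H69.HD.CA

theorem mem_do {en : Ordinal.{u} → ZFSet.{u}} (hE : DO fun w => w 0 ∈ E en (w 1)) (i j : ℕ) :
    DO fun w => w i ∈ E en (w j) := DO.s2 (X := fun a b => a ∈ E en b) hE i j

/-- `e` is the code of a cofinal subset of `β` of order type less than `κ` -/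
def R (en : Ordinal.{u} → ZFSet.{u}) (κ β e : Ordinal.{u}) : Prop :=
  (∀ x, x ∈ E en e → x < β) ∧ (∀ b, b < β → ∃ a, a ∈ E en e ∧ b ≤ a) ∧
    ∃ τ, τ < κ ∧ ∀ z, z ∈ E en e → ∃ a, a < τ ∧ nth (E en e) a z

theorem R_dr (hDB : T_DB.{u}) {en : Ordinal.{u} → ZFSet.{u}}
    (hE : DO fun w => w 0 ∈ E en (w 1)) (κ : Ordinal.{u}) : DR (R en κ) := by
  refine DO.and ?_ (DO.and ?_ ?_)
  · exact DO.all (R := fun x w => x ∈ E en (w 1) → x < w 0) ((mem_do hE 0 2).imp (DO.lt 0 1))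
  · refine DO.all (R := fun b w => b < w 0 → ∃ a, a ∈ E en (w 1) ∧ b ≤ a)
      ((DO.lt 0 1).imp ?_)
    exact DO.ex (R := fun a w => a ∈ E en (w 2) ∧ w 0 ≤ a) ((mem_do hE 0 3).and (DO.le 1 0))
  · refine DO.ex (R := fun τ w => τ < κ ∧ ∀ z, z ∈ E en (w 1) → ∃ a, a < τ ∧
      nth (E en (w 1)) a z) ((DO.ltc 0 κ).and ?_)
    refine DO.all (R := fun z w => z ∈ E en (w 2) → ∃ a, a < w 0 ∧ nth (E en (w 2)) a z)
      ((mem_do hE 0 3).imp ?_)
    refine DO.ex (R := fun a w => a < w 1 ∧ nth (E en (w 3)) a (w 0)) ((DO.lt 0 2).and ?_)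
    have h := hDB (fun a w => a ∈ E en (w 0)) hE
    exact h.ren fun n => if n = 0 then 0 else if n = 1 then 1 else n + 2

theorem X (hCO : T_CO.{u}) (hEN : T_EN.{u}) (hEA : T_EA.{u}) (hDB : T_DB.{u}) : T_CA.{u} := by
  intro M κ lam hM hκ hreg
  obtain ⟨en, hen⟩ := hEN
  obtain ⟨hE1, -, -, -⟩ := hEA en hen
  have hR := R_dr hDB hE1 κ
  have key : ∀ β, κ < β → β < lam → β.cof = M → ∃ e, R en κ β e ∧
      {a | ∃ e, R en κ β e ∧ (∀ e1, e1 < e → ¬ R en κ β e1) ∧ a ∈ E en e} = E en e := by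
    intro β h1 h2 h3
    have hlim : IsSuccLimit β := Ordinal.aleph0_le_cof.1 (by rw [h3]; exact hM.aleph0_le)
    obtain ⟨e0, τ, hτβ, hτr, hτc, hsub, hunb, hotp⟩ := hCO en hen β hlim
    have hτκ : τ < κ := by
      by_contra hc
      exact hreg τ (not_lt.1 hc) (hτβ.trans_lt h2) hτr (hτc.trans h3)
    have hRe : R en κ β e0 := ⟨fun x hx => hsub hx, hunb, τ, hτκ, hotp⟩
    obtain ⟨e, he, hmin⟩ := WellFounded.has_min (wellFounded_lt (α := Ordinal.{u}))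
      {e | R en κ β e} ⟨e0, hRe⟩
    refine ⟨e, he, ?_⟩
    ext a
    constructor
    · rintro ⟨e', he', hmin', ha⟩
      have : e' = e := by
        rcases lt_trichotomy e' e with h | h | h
        · exact absurd h (hmin e' he')
        · exact h
        · exact absurd he (hmin' e h)
      rwa [this] at ha
    · intro ha
      exact ⟨e, he, fun e1 h1 h2 => hmin e1 h2 h1, ha⟩
  refine ⟨fun β a => ∃ e, R en κ β e ∧ (∀ e1, e1 < e → ¬ R en κ β e1) ∧ a ∈ E en e,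
    ?_, ?_, ?_, ?_⟩
  · refine DO.ex (R := fun e w => R en κ (w 0) e ∧ (∀ e1, e1 < e → ¬ R en κ (w 0) e1) ∧
      w 1 ∈ E en e) (DO.and (hR.s2 1 0) (DO.and ?_ (mem_do hE1 2 0)))
    exact DO.all (R := fun e1 w => e1 < w 0 → ¬ R en κ (w 1) e1)
      ((DO.lt 0 1).imp (hR.s2 2 0).not)
  · intro β h1 h2 h3 a ha
    obtain ⟨e, he, hEq⟩ := key β h1 h2 h3
    have : a ∈ E en e := by
      rw [← hEq]
      exact ha
    exact he.1 a this
  · intro β h1 h2 h3 b hb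
    obtain ⟨e, he, hEq⟩ := key β h1 h2 h3
    obtain ⟨a, ha, hba⟩ := he.2.1 b hb
    rw [← hEq] at ha
    exact ⟨a, ha, hba⟩
  · intro β h1 h2 h3
    obtain ⟨e, he, hEq⟩ := key β h1 h2 h3
    obtain ⟨τ, hτ, h⟩ := he.2.2
    rw [← hEq] at h
    exact ⟨τ, hτ, h⟩

end Pool.Agent.H69.HD.CA
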