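import Pool.Agent.H7.HD.Targets5

/-!
# Module KF: the function `F`
-/

open Ordinal Cardinal Order Set
open scoped ZFSet
open _root_.HD

universe u

namespace Pool.Agent.H69.HD.KF

open Pool.Agent.H17.HD.HB (pos_const memc_do)

/-- the set whose least element is `F ξ` -/
def S (en : Ordinal.{u} → ZFSet.{u}) (μ lam c : Ordinal.{u})
    (A : Ordinal.{u} → Ordinal.{u} → Prop) (ξ x : Ordinal.{u}) : Prop :=
  ¬ Pos μ lam {β | β ∈ E en c ∧ ¬ ∃ a, A β a ∧ ξ ≤ a ∧ a < x}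

theorem S_dr (hDA : T_DA.{u}) {en : Ordinal.{u} → ZFSet.{u}}
    (hE : DO fun w => w 0 ∈ E en (w 1)) (μ lam c : Ordinal.{u})
    {A : Ordinal.{u} → Ordinal.{u} → Prop} (hA : DR A) : DR (S en μ lam c A) := by
  refine DO.not ?_
  refine pos_const hDA μ lam (Y := fun β w => β ∈ E en c ∧ ¬ ∃ a, A β a ∧ w 0 ≤ a ∧ a < w 1) ?_
  refine DO.and ?_ (DO.not ?_)
  · exact DO.sect (P := fun b w => b ∈ E en (w 0)) hE (fun _ => c)
  · refine DO.ex (R := fun a w => A (w 0) a ∧ w 1 ≤ a ∧ a < w 2) ?_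
    exact (hA.s2 1 0).and ((DO.le 2 0).and (DO.lt 0 3))

theorem X (hUV : T_UV.{u}) (hVB : T_VB.{u}) (hEA : T_EA.{u}) (hDA : T_DA.{u})
    (hVA : T_VA.{u}) : T_KF.{u} := by
  intro en hen M κ lam c A hM hlam hat hκ hL
  obtain ⟨hE1, -, hE3, -⟩ := hEA en hen
  have hlim : IsSuccLimit lam := Ordinal.aleph0_le_cof.1 hlam.le
  have hS := S_dr hDA hE1 M.ord lam c hL.dr
  have hcof : ∀ b : Ordinal.{u}, Cf M.ord b → b.cof = M := fun b h => Cardinal.ord_injective h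
  -- `lam` works
  have h1 : ∀ ξ < lam, S en M.ord lam c A ξ lam := by
    intro ξ hξ hpos
    refine hVB M.ord lam (succ (max κ ξ)) hlim (hlim.succ_lt (max_lt hκ hξ))
      (hpos.mono fun b hb hbX hbc => ?_)
    by_contra hc
    have hc' : max κ ξ < b := by
      have h0 : ¬ b < succ (max κ ξ) := hc
      exact (Order.succ_le_iff).1 (not_lt.1 h0)
    obtain ⟨a, ha, hξa⟩ := hL.unb b ((le_max_left _ _).trans_lt hc') hb (hcof b hbc) ξ
      ((le_max_right _ _).trans_lt hc')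
    exact hbX.2 ⟨a, ha, hξa, (hL.lt b ((le_max_left _ _).trans_lt hc') hb (hcof b hbc) a
      ha).trans hb⟩
  -- something below `lam` works
  have h2 : ∀ ξ < lam, ∃ x < lam, S en M.ord lam c A ξ x := by
    intro ξ hξ
    have hY : Pos M.ord lam {β | β ∈ E en c ∧ κ < β ∧ ξ < β ∧ β.cof = M} := by
      have := pos_diff hVA hlam hat.pos
        (hVB M.ord lam (succ (max κ ξ)) hlim (hlim.succ_lt (max_lt hκ hξ)))
      refine this.mono fun b hb hbX hbc => ?_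
      have hc' : max κ ξ < b := by
        have h0 : ¬ b < succ (max κ ξ) := hbX.2
        exact (Order.succ_le_iff).1 (not_lt.1 h0)
      exact ⟨hbX.1, (le_max_left _ _).trans_lt hc', (le_max_right _ _).trans_lt hc', hcof b hbc⟩
    have hne : ∀ b ∈ {β | β ∈ E en c ∧ κ < β ∧ ξ < β ∧ β.cof = M}, b < lam →
        (sInf {a | A b a ∧ ξ ≤ a}) ∈ {a | A b a ∧ ξ ≤ a} := by
      intro b hb hbl
      obtain ⟨a, ha, hξa⟩ := hL.unb b hb.2.1 hbl hb.2.2.2 ξ hb.2.2.1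
      exact csInf_mem (s := {a | A b a ∧ ξ ≤ a}) ⟨a, ha, hξa⟩
    obtain ⟨a, ha, hpos⟩ := hUV M.ord lam hlam _ (fun b => sInf {a | A b a ∧ ξ ≤ a}) hY
      (fun b hb hbl _ => hL.lt b hb.2.1 hbl hb.2.2.2 _ (hne b hb hbl).1)
    have hZ : DS {β | ∃ a', A β a' ∧ ξ ≤ a' ∧ a' < a} :=
      DO.ex (R := fun a' w => A (w 0) a' ∧ ξ ≤ a' ∧ a' < a)
        ((hL.dr.s2 1 0).and ((DO.gec 0 ξ).and (DO.ltc 0 a)))
    obtain ⟨z, hz⟩ := hE3 _ hZ lam
    refine ⟨a, ha, fun hp => hat.ult z ⟨?_, ?_⟩⟩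
    · refine hpos.mono fun b hb hbX _ => ⟨hbX.1.1, ?_⟩
      rw [hz]
      exact ⟨⟨_, (hne b hbX.1 hb).1, (hne b hbX.1 hb).2, hbX.2⟩, hb⟩
    · refine hp.mono fun b hb hbX _ => ⟨hbX.1, ?_⟩
      rw [hz]
      exact fun h => hbX.2 h.1
  have h3 : ∀ ξ < lam, S en M.ord lam c A ξ (sInf {x | S en M.ord lam c A ξ x}) := fun ξ hξ =>
    csInf_mem (s := {x | S en M.ord lam c A ξ x}) ⟨lam, h1 ξ hξ⟩
  refine ⟨fun ξ => sInf {x | S en M.ord lam c A ξ x}, ?_, fun ξ hξ => ?_, fun ζ ξ h hξ => ?_,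
    fun ξ hξ => h3 ξ hξ⟩
  · have h4 : DO fun w => (S en M.ord lam c A (w 0) (w 1) ∧
        ∀ y, y < w 1 → ¬ S en M.ord lam c A (w 0) y) ∨
        ((∀ y, ¬ S en M.ord lam c A (w 0) y) ∧ w 1 = 0) := by
      refine DO.or (DO.and hS ?_) (DO.and ?_ (DO.eqc 1 0))
      · exact DO.all (R := fun y w => y < w 1 → ¬ S en M.ord lam c A (w 0) y)
          ((DO.lt 0 2).imp (hS.s2 1 0).not)
      · exact DO.all (R := fun y w => ¬ S en M.ord lam c A (w 0) y) (hS.s2 1 0).not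
    refine h4.congr fun w => ?_
    change w 1 = sInf {x | S en M.ord lam c A (w 0) x} ↔ _
    constructor
    · intro h
      rcases Set.eq_empty_or_nonempty {x | S en M.ord lam c A (w 0) x} with he | he
      · refine Or.inr ⟨fun y hy => ?_, ?_⟩
        · have : y ∈ {x | S en M.ord lam c A (w 0) x} := hy
          rw [he] at this
          exact this
        · rw [h, he, Ordinal.sInf_empty]
      · refine Or.inl ?_
        rw [h]
        exact ⟨csInf_mem he, fun y hy hS' => notMem_of_lt_csInf' hy hS'⟩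
    · rintro (⟨ha, hb⟩ | ⟨ha, hb⟩)
      · refine le_antisymm ?_ (csInf_le' ha)
        by_contra hc
        exact hb _ (not_le.1 hc) (csInf_mem (s := {x | S en M.ord lam c A (w 0) x}) ⟨_, ha⟩)
      · have he : {x | S en M.ord lam c A (w 0) x} = ∅ := by
          ext y
          exact ⟨fun hy => absurd hy (ha y), fun hy => absurd hy (Set.notMem_empty y)⟩
        rw [hb, he, Ordinal.sInf_empty]
  · obtain ⟨x, hx, hxS⟩ := h2 ξ hξ
    exact (csInf_le' (s := {x | S en M.ord lam c A ξ x}) hxS).trans_lt hx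
  · refine csInf_le' (s := {x | S en M.ord lam c A ζ x}) ?_
    intro hp
    refine h3 ξ hξ (hp.mono fun b _ hbX _ => ⟨hbX.1, ?_⟩)
    rintro ⟨a, ha, hξa, hlt⟩
    exact hbX.2 ⟨a, ha, h.trans hξa, hlt⟩

end Pool.Agent.H69.HD.KF
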