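import Pool.Agent.H7.HD.Targets7
import Pool.Agent.H7.HD.All4
import Pool.Agent.H77.HD.HF

/-!
# MP_e37c09_lc, module HF2: one of the `M`-atoms is positive at almost all points of an `N`-atom
-/

open Ordinal Cardinal Order Set
open scoped ZFSet

universe u

namespace Pool.Agent.H69.HD.HF2
open _root_.HD

theorem hf2' (hEA : T_EA.{u}) (hDA : T_DA.{u}) (hVA : T_VA.{u}) (hVC : T_VC.{u})
    (hWA : T_WA.{u}) : T_HF2.{u} := by
  intro en M N α hen hM hN hMN hNα τ hτ e hN0 d hd
  by_contra hcon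
  push Not at hcon
  have hM0 : ℵ₀ ≤ M := hM.aleph0_le
  have hN0' : ℵ₀ < N := hM0.trans_lt hMN
  have hα0 : ℵ₀ < α.cof := hN0'.trans hNα
  have hτN : τ.card < N := Cardinal.lt_ord.1 hτ
  -- the set of points where the complement is positive
  have hn1 := hWA M.ord N.ord α hα0 _ hN0
  -- for every `i` the other part is null
  have hi : ∀ i < τ, ¬ Pos N.ord α {ν | ν ∈ E en d ∧ Pos M.ord ν (E en (e i))} := by
    intro i hi hpos
    have hneg := hcon i hi
    have hds : DS {ν | Pos M.ord ν (E en (e i))} := by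
      have h2 := Pool.Agent.H77.HD.HF.pos_dr hEA hDA hen M.ord
      exact DO.sub (R := fun x w => Pos M.ord (w 0) (E en x)) (e i)
        (DO.s2 (X := fun a c => Pos M.ord a (E en c)) h2 1 0)
    obtain ⟨x, hx⟩ := (hEA en hen).2.2.1 _ hds α
    refine hd.ult x ⟨hpos.mono ?_, hneg.mono ?_⟩
    · rintro b hb ⟨h1, h2⟩ -
      exact ⟨h1, by rw [hx]; exact ⟨h2, hb⟩⟩
    · rintro b hb ⟨h1, h2⟩ -
      refine ⟨h1, ?_⟩
      rw [hx]
      rintro ⟨h3, -⟩
      exact h2 h3
  have hnull := hVA N.ord α hα0 τ (hτN.trans hNα)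
    (fun i => {ν | ν ∈ E en d ∧ Pos M.ord ν (E en (e i))}) hi
  have hall := null_union hVA hα0 hnull hn1
  refine hall (hd.pos.mono fun ν hν hνd hcf => ?_)
  -- a point `ν` of cofinality `N` in the atom
  by_contra hno
  simp only [mem_union, Set.mem_ofPred_eq, not_or, not_exists, not_and] at hno
  obtain ⟨hno1, hno2⟩ := hno
  have hcof : ν.cof = N := Cardinal.ord_injective hcf
  have hu := hVC M ν hM (by rw [hcof]; exact hMN)
  have h3 := hVA M.ord ν (by rw [hcof]; exact hN0') τ (by rw [hcof]; exact hτN)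
    (fun i => E en (e i)) (fun i hi => hno1 i hi hνd)
  have h4 := null_union hVA (by rw [hcof]; exact hN0') h3 hno2
  refine h4 (hu.mono fun b _ _ _ => ?_)
  by_cases hb : ∃ i < τ, b ∈ E en (e i)
  · exact Or.inl hb
  · push Not at hb
    exact Or.inr hb

theorem hf2 : T_HF2.{u} :=
  hf2' _root_.HD.All.ea _root_.HD.All.da _root_.HD.All.va _root_.HD.All.vc _root_.HD.All.wa

end Pool.Agent.H69.HD.HF2
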